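import Pool.Agent.H44.EHN.Even

/-!
# Even EHS numbers in residue classes modulo `3` and `4`
-/

set_option autoImplicit false

namespace Pool.Agent.Results.MP_48f148_nt.EvenClasses

/-- `n` is an EHS number: some prime `p` divides `n! + 1` and `p ≢ 1 (mod n)` -/
def EHS (n : ℕ) : Prop :=
  1 ≤ n ∧ ∃ p : ℕ, p.Prime ∧ p ∣ n.factorial + 1 ∧ ¬ p ≡ 1 [MOD n]

/-- Every residue class modulo `3` contains infinitely many even EHS numbers, and so does each of
the classes of `0` and `2` modulo `4`. -/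
theorem result :
    (∀ a : ℕ, {n : ℕ | Even n ∧ n ≡ a [MOD 3] ∧ EHS n}.Infinite) ∧
    ∀ a : ℕ, Even a → {n : ℕ | n ≡ a [MOD 4] ∧ EHS n}.Infinite := by
  constructor
  · intro a
    refine (EHN.Even.main 3 a (Or.inl rfl)).mono ?_
    rintro n ⟨h1, h2, h3, h4⟩
    exact ⟨h2, h3, h1, h4⟩
  · intro a ha
    refine (EHN.Even.main 4 a (Or.inr ⟨rfl, ha⟩)).mono ?_
    rintro n ⟨h1, h2, h3, h4⟩
    exact ⟨h3, h1, h4⟩

end Pool.Agent.Results.MP_48f148_nt.EvenClasses
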