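import Pool.Agent.H44.EHN.Final

/-!
# Many EHS numbers up to `x`, for infinitely many `x`
-/

set_option autoImplicit false

open Classical

namespace Pool.Agent.Results.MP_48f148_nt.GoldenExponent

/-- `n` is an EHS number: some prime `p` divides `n! + 1` and `p ≢ 1 (mod n)` -/
def EHS (n : ℕ) : Prop :=
  1 ≤ n ∧ ∃ p : ℕ, p.Prime ∧ p ∣ n.factorial + 1 ∧ ¬ p ≡ 1 [MOD n]

/-- the number of odd EHS numbers `n ≤ x` which are multiples of `d` -/
noncomputable def count (d x : ℕ) : ℕ :=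
  ((Finset.Icc 1 x).filter fun n => Odd n ∧ d ∣ n ∧ EHS n).card

theorem count_eq (d x : ℕ) : count d x = (EHN.S d x).card := by
  unfold count EHN.S
  congr 1
  apply Finset.filter_congr
  intro n hn
  rw [Finset.mem_Icc] at hn
  constructor
  · rintro ⟨h1, h2, -, h3⟩
    exact ⟨h1, h2, h3⟩
  · rintro ⟨h1, h2, h3⟩
    exact ⟨h1, h2, hn.1, h3⟩

/-- Let `d` be odd and `θ < (√5 - 1) / 2`.  For infinitely many `x` there are at least `(log x)^θ`
odd EHS numbers `≤ x` divisible by `d`. -/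
theorem result (d : ℕ) (hd : Odd d) (θ : ℝ) (hθ : θ < (√5 - 1) / 2) :
    ∃ᶠ x : ℕ in Filter.atTop, (Real.log x) ^ θ ≤ count d x := by
  have h5 : (√5) ^ 2 = 5 := Real.sq_sqrt (by norm_num)
  have h5' : 2 < √5 := by
    rw [Real.lt_sqrt (by norm_num)]
    norm_num
  obtain ⟨μ, hμ⟩ : ∃ μ : ℝ, μ = max θ (1 / 2) := ⟨_, rfl⟩
  have hμ1 : μ < (√5 - 1) / 2 := by
    rw [hμ, max_lt_iff]
    exact ⟨hθ, by linarith⟩
  have hμ2 : 1 / 2 ≤ μ := by
    rw [hμ]
    exact le_max_right _ _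
  have hθμ : θ ≤ μ := by
    rw [hμ]
    exact le_max_left _ _
  have h := EHN.sup_final d hd μ (by linarith) (by nlinarith)
  have hl : ∀ᶠ x : ℕ in Filter.atTop, 1 ≤ Real.log x :=
    (Real.tendsto_log_atTop.comp tendsto_natCast_atTop_atTop).eventually_ge_atTop 1
  refine (h.and_eventually hl).mono ?_
  rintro x ⟨hx, hx1⟩
  rw [count_eq]
  exact le_trans (Real.rpow_le_rpow_of_exponent_le hx1 hθμ) hx

end Pool.Agent.Results.MP_48f148_nt.GoldenExponent
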