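import Pool.Agent.H44.EHN.Final

/-!
# A lower bound for the number of EHS numbers up to `x`
-/

set_option autoImplicit false

open Classical

namespace Pool.Agent.Results.MP_48f148_nt.LowerBound

/-- `n` is an EHS number: some prime `p` divides `n! + 1` and `p ≢ 1 (mod n)` -/
def EHS (n : ℕ) : Prop :=
  1 ≤ n ∧ ∃ p : ℕ, p.Prime ∧ p ∣ n.factorial + 1 ∧ ¬ p ≡ 1 [MOD n]

/-- the number of odd EHS numbers `n ≤ x` which are multiples of `d` -/
noncomputable def count (d x : ℕ) : ℕ :=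
  ((Finset.Icc 1 x).filter fun n => Odd n ∧ d ∣ n ∧ EHS n).card

theorem count_eq (d x : ℕ) : count d x = (EHN.S d x).card := by
  unfold count EHN.S
  congr 1
  apply Finset.filter_congr
  intro n hn
  rw [Finset.mem_Icc] at hn
  constructor
  · rintro ⟨h1, h2, -, h3⟩
    exact ⟨h1, h2, h3⟩
  · rintro ⟨h1, h2, h3⟩
    exact ⟨h1, h2, hn.1, h3⟩

/-- Let `d` be odd.  For all large `x` there are at least `c √(log x) / (log log x)^2` odd EHS
numbers `≤ x` divisible by `d`. -/
theorem result (d : ℕ) (hd : Odd d) :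
    ∃ c : ℝ, 0 < c ∧ ∀ᶠ x : ℕ in Filter.atTop,
      c * √(Real.log x) / (Real.log (Real.log x)) ^ 2 ≤ count d x := by
  obtain ⟨c, hc, h⟩ := EHN.lim_final d hd
  refine ⟨c, hc, ?_⟩
  filter_upwards [h] with x hx
  rw [count_eq]
  exact hx

end Pool.Agent.Results.MP_48f148_nt.LowerBound
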